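import Pool.Agent.H37.CNT.Stmts

/-!
# Denominators of conductors: the cover of the line with group `SU_3(q)`: statements of the rows of the
board `cnu`

Row `XXX` is a theorem `xxx_thm (h1 : S_AAA) ... : S_XXX` in `Pool/Agent/H<k>/CNU/XXX.lean`, importing this
file, namespace `Pool.CND`.

The cover (the Deligne-Lusztig curve): `F` a field with `q ^ 2` elements, `X = (X_0, X_1, X_2)`,
`B(a, b) = a_0 b_2 + a_2 b_0 - a_1 b_1`, `X^(j)` = the `q ^ j`-th powers; `B(X, X^(1)) = 0`, `B(X, X^(3)) = 1`,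
`t = B(X, X^(5))`.  In terms of `x = X_1 / X_0`, `y = X_2 / X_0`, `u = 1 / X_0`: `y ^ q + y = x ^ (q + 1)` (Hermitian curve),
`u ^ (q ^ 2 - q + 1) = x ^ (q ^ 2) - x`.  At the place `P`: `ord X_0 = q ^ 3`, `ord X_1 = q ^ 2 - q`, `ord X_2 = -1`,
`ord t = -q ^ 3 (q ^ 2 - 1)`; the inertia group is the Borel group `g_10 = g_20 = 0`; conductor
`(q ^ 2 - q + 1) / (q (q - 1))`.
-/

set_option autoImplicit false

namespace Pool.CND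

open Finset Matrix

/-- the matrix of the hermitian form `X_0 Y_2 + X_2 Y_0 - X_1 Y_1` -/
def J3 (F : Type) [Field F] : Matrix (Fin 3) (Fin 3) F := !![0, 0, 1; 0, -1, 0; 1, 0, 0]

/-- `SU_3` for the automorphism `σ` (`a ↦ a ^ q` on the field with `q ^ 2` elements) -/
def SU3 {F : Type} [Field F] (σ : F →+* F) : Subgroup (Matrix.SpecialLinearGroup (Fin 3) F) where
  carrier := {g | g.1 * J3 F * (g.1.map σ)ᵀ = J3 F}
  mul_mem' := by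
    intro a b ha hb
    simp only [Set.mem_setOf_eq] at ha hb ⊢
    have h1 : ((a * b).1.map σ)ᵀ = (b.1.map σ)ᵀ * (a.1.map σ)ᵀ := by
      rw [← Matrix.transpose_mul, ← Matrix.map_mul]
      rfl
    rw [h1]
    show (a.1 * b.1) * J3 F * _ = _
    calc (a.1 * b.1) * J3 F * ((b.1.map σ)ᵀ * (a.1.map σ)ᵀ)
        = a.1 * (b.1 * J3 F * (b.1.map σ)ᵀ) * (a.1.map σ)ᵀ := by simp only [Matrix.mul_assoc]
      _ = J3 F := by rw [hb, ha]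
  one_mem' := by
    simp only [Set.mem_setOf_eq]
    show (1 : Matrix (Fin 3) (Fin 3) F) * J3 F * ((1 : Matrix (Fin 3) (Fin 3) F).map σ)ᵀ = J3 F
    rw [Matrix.map_one σ (map_zero σ) (map_one σ), Matrix.transpose_one, Matrix.one_mul,
      Matrix.mul_one]
  inv_mem' := by
    intro a ha
    simp only [Set.mem_setOf_eq] at ha ⊢
    have h1 : (a⁻¹).1 * a.1 = 1 := by
      show (a⁻¹ * a).1 = 1
      rw [inv_mul_cancel]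
      rfl
    have h2 : (a.1.map σ)ᵀ * ((a⁻¹).1.map σ)ᵀ = 1 := by
      rw [← Matrix.transpose_mul, ← Matrix.map_mul, h1,
        Matrix.map_one σ (map_zero σ) (map_one σ), Matrix.transpose_one]
    calc (a⁻¹).1 * J3 F * ((a⁻¹).1.map σ)ᵀ
        = (a⁻¹).1 * (a.1 * J3 F * (a.1.map σ)ᵀ) * ((a⁻¹).1.map σ)ᵀ := by rw [ha]
      _ = ((a⁻¹).1 * a.1) * J3 F * ((a.1.map σ)ᵀ * ((a⁻¹).1.map σ)ᵀ) := by
        simp only [Matrix.mul_assoc]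
      _ = J3 F := by rw [h1, h2, Matrix.one_mul, Matrix.mul_one]

/-- the relations between `X` and `t` -/
structure SuR {L : Type} [Field L] (q : ℕ) (t : L) (X : Fin 3 → L) : Prop where
  h1 : X 0 * X 2 ^ q + X 2 * X 0 ^ q - X 1 ^ (q + 1) = 0
  h3 : X 0 * X 2 ^ (q ^ 3) + X 2 * X 0 ^ (q ^ 3) - X 1 ^ (q ^ 3 + 1) = 1
  h5 : X 0 * X 2 ^ (q ^ 5) + X 2 * X 0 ^ (q ^ 5) - X 1 ^ (q ^ 5 + 1) = t
  c01 : X 0 * X 1 ^ (q ^ 2) - X 1 * X 0 ^ (q ^ 2) = X 0 ^ q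
  c12 : X 1 * X 2 ^ (q ^ 2) - X 2 * X 1 ^ (q ^ 2) = X 2 ^ q
  c20 : X 2 * X 0 ^ (q ^ 2) - X 0 * X 2 ^ (q ^ 2) = -X 1 ^ q
  rel : ∀ i, X i ^ (q ^ 6) - t ^ q * X i ^ (q ^ 4) + t * X i ^ (q ^ 2) - X i = 0
  ne : X 0 ≠ 0

/-- the data of the cover -/
structure Su (k F L : Type) [Field k] [Field F] [Field L] [Algebra F k] [Algebra k L] (q : ℕ)
    (σ : F →+* F) (t : L) (X : Fin 3 → L) (ρ : SU3 σ →* (L ≃ₐ[k] L)) (P : Place k L) : Prop where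
  rels : SuR q t X
  act_t : ∀ g : SU3 σ, ρ g t = t
  act_X : ∀ (g : SU3 σ) (i : Fin 3), ρ g (X i) = ∑ j, cst k F L (g.1.1 j i) * X j
  ne : t ≠ 0 ∧ X 0 ≠ 0 ∧ X 1 ≠ 0 ∧ X 2 ≠ 0
  ord_t : P.ord t = -((q ^ 3 * (q ^ 2 - 1) : ℕ) : ℤ)
  ord_0 : P.ord (X 0) = ((q ^ 3 : ℕ) : ℤ)
  ord_1 : P.ord (X 1) = ((q ^ 2 - q : ℕ) : ℤ)
  ord_2 : P.ord (X 2) = -1
  tr : Transcendental k t
  fixed : ∀ z : L, (∀ g : SU3 σ, ρ g z = z) → z ∈ IntermediateField.adjoin k {t}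
  span : ∀ z : L, ∃ c : Fin q → Fin (q ^ 2 - q + 1) → L,
    (∀ i j, c i j ∈ IntermediateField.adjoin k {X 1 / X 0}) ∧
      z = ∑ i, ∑ j, c i j * (X 2 / X 0) ^ (i : ℕ) * (1 / X 0) ^ (j : ℕ)

/-- UNL: Laurent series.  `y = τ ^ (-(q + 1) e)`, `x = (y ^ q + y) ^ (1 / (q + 1))`, `u = (x ^ (q ^ 2) - x) ^ (1 / e)`,
`e = q ^ 2 - q + 1` (prime to `p`), roots with constant term `1` as in row `SRS` -/
def S_UNL : Prop := ∀ (p : ℕ) (k : Type) [Field k] (f q e : ℕ), p.Prime → CharP k p → 1 ≤ f →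
  q = p ^ f → e + q = q ^ 2 + 1 → ∃ x y u : LaurentSeries k, x ≠ 0 ∧ y ≠ 0 ∧ u ≠ 0 ∧
  x.order = -((q * e : ℕ) : ℤ) ∧ y.order = -(((q + 1) * e : ℕ) : ℤ) ∧
  u.order = -((q ^ 3 : ℕ) : ℤ) ∧ y ^ q + y = x ^ (q + 1) ∧ u ^ e = x ^ (q ^ 2) - x

/-- UNR: the relations.  `X = (1 / u, x / u, y / u)`: `h1`, `c01` are the two equations, `c12`, `c20` follow (take `q`-th
powers of `y ^ q + y = x ^ (q + 1)`), `h3`: `y ^ (q ^ 3) + y - x ^ (q ^ 3 + 1) = (x ^ (q ^ 2) - x) ^ (q + 1)`;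
`rel`: `X^(6) - X + t X^(2) - t ^ q X^(4)` is orthogonal to `X^(1)`, `X^(3)`, `X^(5)`, whose determinant is `± 1` (`c01`, `c12`,
`c20` and `h3`).  Last part: `y ^ (q ^ 5) + y - x ^ (q ^ 5 + 1) = Δ ^ (q ^ 3 + q ^ 2) + Δ ^ (q ^ 3 + 1) + Δ ^ (q + 1)` for
`Δ = x ^ (q ^ 2) - x`, and `t` is this divided by `u ^ (q ^ 5 + 1)`, `u ^ e = Δ`, `e (q + 1) = q ^ 3 + 1`. -/
def S_UNR : Prop := ∀ (p : ℕ) (Ω : Type) [Field Ω] (f q e : ℕ) (x y u t : Ω), p.Prime →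
  CharP Ω p → 1 ≤ f → q = p ^ f → e + q = q ^ 2 + 1 → u ≠ 0 → y ^ q + y = x ^ (q + 1) →
  u ^ e = x ^ (q ^ 2) - x →
  t = (1 / u) * (y / u) ^ (q ^ 5) + (y / u) * (1 / u) ^ (q ^ 5) - (x / u) ^ (q ^ 5 + 1) →
  SuR q t ![1 / u, x / u, y / u] ∧
  t ^ e * (x ^ (q ^ 2) - x) ^ (q ^ 5 - q ^ 3) = (1 + (x ^ (q ^ 2) - x) ^ (q ^ 3 - q) +
    (x ^ (q ^ 2) - x) ^ (q ^ 3 + q ^ 2 - q - 1)) ^ e

/-- UNS: `k(x, y, u)` is spanned over `k(x)` by `y ^ i u ^ j` -/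
def S_UNS : Prop := ∀ (k Ω : Type) [Field k] [Field Ω] [Algebra k Ω] (q e : ℕ) (x y u : Ω),
  2 ≤ q → 1 ≤ e → u ≠ 0 → y ^ q + y = x ^ (q + 1) → u ^ e = x ^ (q ^ 2) - x →
  ∀ z ∈ IntermediateField.adjoin k {x, y, u}, ∃ c : Fin q → Fin e → Ω,
    (∀ i j, c i j ∈ IntermediateField.adjoin k {x}) ∧
      z = ∑ i, ∑ j, c i j * y ^ (i : ℕ) * u ^ (j : ℕ)

/-- UNX: orders on `k(x)`, `ord x = -e < 0`: multiples of `e`, unchanged under `x ↦ a x + b` -/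
def S_UNX : Prop := ∀ (k L : Type) [Field k] [Field L] [Algebra k L] (P : Place k L) (x : L)
  (e : ℕ), 1 ≤ e → x ≠ 0 → P.ord x = -(e : ℤ) →
  ∀ c ∈ IntermediateField.adjoin k {x}, c ≠ 0 → (e : ℤ) ∣ P.ord c ∧
    ∀ (σ : L ≃ₐ[k] L) (a b : k), a ≠ 0 → σ x = algebraMap k L a * x + algebraMap k L b →
      P.ord (σ c) = P.ord c

/-- UNV: `[k(x, y, u) : k(x)] = q e` (`UNS`, `UNX`, `VEC` with `n = q e`: the orders of `y ^ i u ^ j` are distinct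
modulo `q e`; `e` is prime to `q`) -/
def S_UNV : Prop := ∀ (k Ω : Type) [Field k] [Field Ω] [Algebra k Ω] (Λ : Place k Ω) (q e : ℕ)
  (x y u : Ω), 2 ≤ q → e + q = q ^ 2 + 1 → x ≠ 0 → y ≠ 0 → u ≠ 0 →
  Λ.ord x = -((q * e : ℕ) : ℤ) → Λ.ord y = -(((q + 1) * e : ℕ) : ℤ) →
  Λ.ord u = -((q ^ 3 : ℕ) : ℤ) → y ^ q + y = x ^ (q + 1) → u ^ e = x ^ (q ^ 2) - x →
  IntermediateField.relfinrank (IntermediateField.adjoin k {x})
    (IntermediateField.adjoin k {x, y, u}) = q * e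

/-- UNT: the degree of `T` as a rational function of `x` (`rel_deg` in `Pool/Agent/H55/CNE/SLT.lean`) -/
def S_UNT : Prop := ∀ (k Ω : Type) [Field k] [Field Ω] [Algebra k Ω] (q e : ℕ) (x T : Ω), 2 ≤ q →
  e + q = q ^ 2 + 1 → Transcendental k x →
  T * (x ^ (q ^ 2) - x) ^ (q ^ 5 - q ^ 3) = (1 + (x ^ (q ^ 2) - x) ^ (q ^ 3 - q) +
    (x ^ (q ^ 2) - x) ^ (q ^ 3 + q ^ 2 - q - 1)) ^ e →
  IntermediateField.adjoin k {T} ≤ IntermediateField.adjoin k {x} ∧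
  IntermediateField.relfinrank (IntermediateField.adjoin k {T})
    (IntermediateField.adjoin k {x}) = q ^ 2 * ((q ^ 2 - 1) * (q ^ 3 + 1))

/-- UND: `[k(x, y, u) : k(t)] = q ^ 3 (q ^ 2 - 1) (q ^ 3 + 1)` (`UNR`, `UNV`, `UNT` for `T = t ^ e`, `SLM`, `e (q + 1) = q ^ 3 + 1`) -/
def S_UND : Prop := ∀ (p : ℕ) (k Ω : Type) [Field k] [Field Ω] [Algebra k Ω] (Λ : Place k Ω)
  (f q e : ℕ) (x y u t : Ω), p.Prime → CharP k p → 1 ≤ f → q = p ^ f → e + q = q ^ 2 + 1 →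
  x ≠ 0 → y ≠ 0 → u ≠ 0 →
  Λ.ord x = -((q * e : ℕ) : ℤ) → Λ.ord y = -(((q + 1) * e : ℕ) : ℤ) →
  Λ.ord u = -((q ^ 3 : ℕ) : ℤ) → y ^ q + y = x ^ (q + 1) → u ^ e = x ^ (q ^ 2) - x →
  t = (1 / u) * (y / u) ^ (q ^ 5) + (y / u) * (1 / u) ^ (q ^ 5) - (x / u) ^ (q ^ 5 + 1) →
  IntermediateField.relfinrank (IntermediateField.adjoin k {t})
    (IntermediateField.adjoin k {x, y, u}) = q ^ 3 * ((q ^ 2 - 1) * (q ^ 3 + 1))

/-- UNC: `|SU_3(q)|` is at most `q ^ 3 (q ^ 2 - 1) (q ^ 3 + 1)`: the first column `v` of `g` satisfies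
`v_0 v_2 ^ q + v_2 v_0 ^ q = v_1 ^ (q + 1)` (`(q ^ 2 - 1) (q ^ 3 + 1)` nonzero solutions), and a fibre has at most `q ^ 3` elements
(the stabiliser of the first unit vector: unitriangular matrices) -/
def S_UNC : Prop := ∀ (p : ℕ) (F : Type) [Field F] (f q : ℕ) (σ : F →+* F), p.Prime → 1 ≤ f →
  q = p ^ f → Nat.card F = q ^ 2 → (∀ a, σ a = a ^ q) →
  Nat.card (SU3 σ) ≤ q ^ 3 * ((q ^ 2 - 1) * (q ^ 3 + 1))

/-- UNG: the group.  `K = k(t)`; the roots of `T ^ (q ^ 6) - t ^ q T ^ (q ^ 4) + t T ^ (q ^ 2) - T` are the combinations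
`∑ c_i X_i`, `c_i : F`; a `K`-automorphism is given by a matrix `g`; `D = g J σ(g)ᵀ - J` satisfies `X D X^(1) = 0`,
`X D X^(3) = 0`, `X D X^(5) = 0`, so `D X^(5)` is orthogonal to `X`, `X^(2)`, `X^(4)` (determinant `h3 = 1`): `D = 0`; and
`det g = 1` because this determinant is fixed.  The degree is at least the order of the group (`UNC`). -/
def S_UNG : Prop := ∀ (p : ℕ) (k F L : Type) [Field k] [Field F] [Field L] [Algebra F k]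
  [Algebra k L] (f q : ℕ) (σ : F →+* F) (t : L) (X : Fin 3 → L), p.Prime → CharP k p → 1 ≤ f →
  q = p ^ f → Nat.card F = q ^ 2 → (∀ a, σ a = a ^ q) → SuR q t X →
  IntermediateField.adjoin k (insert t (Set.range X)) = ⊤ →
  Module.finrank (IntermediateField.adjoin k {t}) L = q ^ 3 * ((q ^ 2 - 1) * (q ^ 3 + 1)) →
  ∃ ρ : SU3 σ →* (L ≃ₐ[k] L), (∀ g : SU3 σ, ρ g t = t) ∧
    (∀ (g : SU3 σ) (i : Fin 3), ρ g (X i) = ∑ j, cst k F L (g.1.1 j i) * X j) ∧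
    ∀ z : L, (∀ g : SU3 σ, ρ g z = z) → z ∈ IntermediateField.adjoin k {t}

/-- UNE: existence of the data, `L = k(x, y, u)` in `LaurentSeries k` (`UNL`, `LSP`, `SBP`, `UNR`, `UNS`, `UND`, `UNG`) -/
def S_UNE : Prop := ∀ (p : ℕ) (k F : Type) [Field k] [Field F] [Algebra F k] (f q : ℕ)
  (σ : F →+* F), p.Prime → CharP k p → 1 ≤ f → q = p ^ f → Nat.card F = q ^ 2 →
  (∀ a, σ a = a ^ q) → ∃ (L : Type) (_ : Field L) (_ : Algebra k L) (t : L) (X : Fin 3 → L)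
    (ρ : SU3 σ →* (L ≃ₐ[k] L)) (P : Place k L), Su k F L q σ t X ρ P

/-- UNB: the shape of the elements with `g_10 = g_20 = 0`: upper triangular, with diagonal
`(a, a ^ (q - 1), a ^ (-q))`; if `a = 1` and `g_12 = 0` then `g_01 = 0`; numbers of elements -/
def S_UNB : Prop := ∀ (p : ℕ) (F : Type) [Field F] (f q : ℕ) (σ : F →+* F), p.Prime → 1 ≤ f →
  q = p ^ f → Nat.card F = q ^ 2 → (∀ a, σ a = a ^ q) →
  (∀ g : SU3 σ, g.1.1 1 0 = 0 → g.1.1 2 0 = 0 → g.1.1 2 1 = 0 ∧ g.1.1 0 0 ≠ 0 ∧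
    g.1.1 1 1 * g.1.1 0 0 = g.1.1 0 0 ^ q ∧ g.1.1 2 2 * g.1.1 0 0 ^ q = 1 ∧
    (g.1.1 0 0 = 1 → g.1.1 0 1 = g.1.1 1 2 ^ q)) ∧
  Nat.card {g : SU3 σ // g.1.1 1 0 = 0 ∧ g.1.1 2 0 = 0} = q ^ 3 * (q ^ 2 - 1) ∧
  Nat.card {g : SU3 σ // g.1.1 1 0 = 0 ∧ g.1.1 2 0 = 0 ∧ g.1.1 0 0 = 1} = q ^ 3 ∧
  Nat.card {g : SU3 σ // g.1.1 1 0 = 0 ∧ g.1.1 2 0 = 0 ∧ g.1.1 0 0 = 1 ∧ g.1.1 1 2 = 0} = q

/-- UNF: the elements fixing `P` (`→`: the order of `ρ g (X 0)`; `←`: `span`, `VEC`, `UNX`, `UNB`: `x = X_1 / X_0` is mapped to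
`a x + b`, `u = 1 / X_0` to a constant multiple, `y = X_2 / X_0` to `c y + d x + e`) -/
def S_UNF : Prop := ∀ (p : ℕ) (k F L : Type) [Field k] [Field F] [Field L] [Algebra F k]
  [Algebra k L] (f q : ℕ) (σ : F →+* F) (t : L) (X : Fin 3 → L) (ρ : SU3 σ →* (L ≃ₐ[k] L))
  (P : Place k L), p.Prime → CharP k p → 1 ≤ f → q = p ^ f → Nat.card F = q ^ 2 →
  (∀ a, σ a = a ^ q) → Su k F L q σ t X ρ P →
  ∀ g : SU3 σ, Fixes P (ρ g) ↔ g.1.1 1 0 = 0 ∧ g.1.1 2 0 = 0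

/-- UNK: it is a cover (at a place with `t` finite the `X i` are finite, by `rel`, and their residues are
independent over `F`: the determinant of `X`, `X^(2)`, `X^(4)` is `h3 = 1` by `c01`, `c12`, `c20`) -/
def S_UNK : Prop := ∀ (p : ℕ) (k F L : Type) [Field k] [Field F] [Field L] [Algebra F k]
  [Algebra k L] (f q : ℕ) (σ : F →+* F) (t : L) (X : Fin 3 → L) (ρ : SU3 σ →* (L ≃ₐ[k] L))
  (P : Place k L), p.Prime → CharP k p → 1 ≤ f → q = p ^ f → Nat.card F = q ^ 2 →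
  (∀ a, σ a = a ^ q) → Su k F L q σ t X ρ P → IsCover ρ t

/-- UNN: `ram i`, `i ≥ 1`, and the conductor.  `g X_2 - X_2 = g_12 X_1 + g_02 X_0` if `g_00 = 1`: `LO2` for `X_2` gives
`b = q ^ 2 - q + 1` if `g_12 ≠ 0`, `b = q ^ 3 + 1` if `g_12 = 0`, `g ≠ 1`; if `g_00 ≠ 1` then `g X_0 - X_0` has the order of `X_0`
(`UNF`, `UNB`, `RAM`, `LON`, `TMO`) -/
def S_UNN : Prop := ∀ (p : ℕ) (k F L : Type) [Field k] [Field F] [Field L] [Algebra F k]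
  [Algebra k L] (f q : ℕ) (σ : F →+* F) (t : L) (X : Fin 3 → L) (ρ : SU3 σ →* (L ≃ₐ[k] L))
  (P : Place k L), p.Prime → CharP k p → 1 ≤ f → q = p ^ f → Nat.card F = q ^ 2 →
  (∀ a, σ a = a ^ q) → Su k F L q σ t X ρ P →
  IsConductor P ρ (((q ^ 2 - q + 1 : ℕ) : ℚ) / (q * (q - 1) : ℕ))

/-- UNO: from `UNE`, `UNK`, `UNN` -/
def S_UNO : Prop := ∀ (p : ℕ) (k F : Type) [Field k] [Field F] [Algebra F k] (f q : ℕ)
  (σ : F →+* F), p.Prime → CharP k p → 1 ≤ f → q = p ^ f → Nat.card F = q ^ 2 →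
  (∀ a, σ a = a ^ q) → (((q ^ 2 - q + 1 : ℕ) : ℚ) / (q * (q - 1) : ℕ)) ∈ Cond k (SU3 σ)

/-- UNP: `q (q - 1)` divides `N` for `SU_3(q)`: from `UNO`, `PUN` (`F` embeds in `k`; the fraction is in lowest terms) -/
def S_UNP : Prop := ∀ (p : ℕ) (k F : Type) [Field k] [IsAlgClosed k] [Field F] (f q : ℕ)
  (σ : F →+* F), p.Prime → CharP k p → 1 ≤ f → q = p ^ f → Nat.card F = q ^ 2 →
  (∀ a, σ a = a ^ q) → q * (q - 1) ∣ NG k (SU3 σ)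

end Pool.CND
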